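import Pool.Agent.SR2.NC.Defs
import Pool.Agent.H62.FC.CurveIdeal
import Pool.Agent.H39.SY.Dim
import Pool.Agent.H39.SY.GenSm
import Pool.Agent.H17EF.MainE

/-!
# SR2 NC Cur: the ideals of the curves
-/

set_option autoImplicit false

open Topology Filter Metric MvPolynomial

noncomputable section

namespace Pool.Agent.SR2.NC

open Pool.Agent.H17 (PN VanishesAt HolomorphicInto)
open Pool.Agent.H62.FC (Homog exists_fin_basis homog_of_minimal)
open Pool.Agent.H17LG.Variety (FunField)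
open Pool.Agent.H17EF (projVar)
open Pool.Agent.H13.SM (conTan)
open Pool.Agent.H17BP (mapIdeal mapIdeal_isPrime mem_mapIdeal_form trdeg_lt eq_of_trdeg_zero mapIdeal_homog exists_X_notMem le_mapIdeal
  mem_variety_mapIdeal)

variable {N : ℕ} {P J : Ideal (MvPolynomial (Fin (N + 1)) ℂ)} {R : MvPolynomial (Fin (N + 1)) ℂ} {d : ℕ} {f g : ℂ → PN N}

theorem curve_prime (hf : CurveIn P R f) : (mapIdeal f Set.univ).IsPrime :=
  mapIdeal_isPrime isOpen_univ isPreconnected_univ ⟨0, Set.mem_univ _⟩ hf.hol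

theorem curve_le (hP : Homog P) (hf : CurveIn P R f) : P ≤ mapIdeal f Set.univ :=
  le_mapIdeal hP fun z _ => ⟨fun Q hQ n hn => hf.mem z Q hQ n hn, fun m => m.elim0⟩

theorem curve_mem (hR : R.IsHomogeneous d) (hf : CurveIn P R f) : R ∈ mapIdeal f Set.univ :=
  (mem_mapIdeal_form hR).2 fun z _ => hf.van z

/-- a homogeneous prime between `P + (R)` and the ideal of a curve has transcendence degree one -/
theorem trdeg_one [P.IsPrime] (hP : Homog P) (hz : ∃ z : Fin 2 → FunField P, IsTranscendenceBasis ℂ z) (hRP : R ∉ P) {Q : Ideal (MvPolynomial (Fin (N + 1)) ℂ)}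
    [Q.IsPrime] (hQ : Homog Q) (hPQ : P ≤ Q) (hRQ : R ∈ Q) (hf : CurveIn P R f) (hQf : Q ≤ mapIdeal f Set.univ) :
    ∃ z : Fin 1 → FunField Q, IsTranscendenceBasis ℂ z := by
  have hX : ∃ i, (X i : MvPolynomial (Fin (N + 1)) ℂ) ∉ Q := by
    obtain ⟨i, hi⟩ := exists_X_notMem (f := f) (U := Set.univ) ⟨0, Set.mem_univ _⟩
    exact ⟨i, fun h => hi (hQf h)⟩
  obtain ⟨w, hw⟩ := exists_fin_basis hX
  have h1 : w < 2 := trdeg_lt hP hQ hPQ (fun h => hRP (h hRQ)) hX hz hw
  have h0 : w ≠ 0 := by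
    rintro rfl
    have h2 := eq_of_trdeg_zero hQ hX hw
    obtain ⟨a, b, hab⟩ := hf.ne
    have hmem : ∀ z, f z ∈ Pool.Agent.H17BP.variety Q := fun z =>
      ⟨fun G hG n hn => (mem_mapIdeal_form hn).1 (hQf hG) z (Set.mem_univ _), fun m => m.elim0⟩
    exact hab (h2 _ (hmem a) _ (hmem b))
  obtain rfl : w = 1 := by omega
  exact hw

/-- `P < mapIdeal f`, so the transcendence degree is `≤ 1`; it is not `0` since `f` is not constant (`eq_of_trdeg_zero`). -/
theorem curve_trdeg [P.IsPrime] (hP : Homog P) (hz : ∃ z : Fin 2 → FunField P, IsTranscendenceBasis ℂ z) (hR : R.IsHomogeneous d) (hRP : R ∉ P)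
    (hf : CurveIn P R f) (hp : (mapIdeal f Set.univ).IsPrime) : ∃ z : Fin 1 → FunField (mapIdeal f Set.univ), IsTranscendenceBasis ℂ z :=
  trdeg_one hP hz hRP mapIdeal_homog (curve_le hP hf) (curve_mem hR hf) hf le_rfl

/-- Generic smoothness -/
theorem curve_smooth [P.IsPrime] (hP : Homog P) (hz : ∃ z : Fin 2 → FunField P, IsTranscendenceBasis ℂ z) (hR : R.IsHomogeneous d) (hRP : R ∉ P)
    (hf : CurveIn P R f) : ∃ (g : MvPolynomial (Fin (N + 1)) ℂ) (n : ℕ), g.IsHomogeneous n ∧ g ∉ mapIdeal f Set.univ ∧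
      ∀ y : Fin (N + 1) → ℂ, (∀ T ∈ mapIdeal f Set.univ, eval y T = 0) → eval y g ≠ 0 → Module.finrank ℂ (conTan (mapIdeal f Set.univ) y) ≤ 2 := by
  have hp := curve_prime hf
  have h1 := curve_trdeg hP hz hR hRP hf hp
  exact Pool.Agent.H39.SY.exists_jac hp mapIdeal_homog (Pool.Agent.H39.SY.TD_cone mapIdeal_homog (exists_X_notMem ⟨0, Set.mem_univ _⟩) h1).1

/-- There is no homogeneous prime strictly between `P + (R)` and the ideal of a curve. -/
theorem curve_min [P.IsPrime] (hP : Homog P) (hz : ∃ z : Fin 2 → FunField P, IsTranscendenceBasis ℂ z) (hRP : R ∉ P) (hR : R.IsHomogeneous d)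
    {Q : Ideal (MvPolynomial (Fin (N + 1)) ℂ)} [Q.IsPrime] (hQ : Homog Q) (hPQ : P ≤ Q) (hRQ : R ∈ Q) (hf : CurveIn P R f)
    (hQf : Q ≤ mapIdeal f Set.univ) : Q = mapIdeal f Set.univ := by
  have hp := curve_prime hf
  refine le_antisymm hQf ?_
  by_contra hne
  have h1 := trdeg_one hP hz hRP hQ hPQ hRQ hf hQf
  have h2 := curve_trdeg hP hz hR hRP hf hp
  have := trdeg_lt hQ mapIdeal_homog hQf hne (exists_X_notMem ⟨0, Set.mem_univ _⟩) h1 h2
  omega

/-- There are only finitely many ideals `mapIdeal f`. -/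
theorem finite_curves [P.IsPrime] (hP : Homog P) (hz : ∃ z : Fin 2 → FunField P, IsTranscendenceBasis ℂ z) (hR : R.IsHomogeneous d) (hRP : R ∉ P) :
    {J : Ideal (MvPolynomial (Fin (N + 1)) ℂ) | ∃ f, CurveIn P R f ∧ J = mapIdeal f Set.univ}.Finite := by
  classical
  set κ : Type := {l : MvPolynomial (Fin (N + 1)) ℂ × ℕ // l.1.IsHomogeneous l.2 ∧ (l.1 ∈ P ∨ l.1 = R)} with hκ
  set A : κ → MvPolynomial (Fin (N + 1)) ℂ := fun l => l.1.1 with hA
  have hAh : ∀ l, (A l).IsHomogeneous (l.1.2) := fun l => l.2.1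
  have hPI : P ≤ Ideal.span (Set.range A) := by
    intro p hp
    rw [← MvPolynomial.sum_homogeneousComponent p]
    refine Ideal.sum_mem _ fun i _ => Ideal.subset_span ⟨⟨(homogeneousComponent i p, i), homogeneousComponent_isHomogeneous i p, Or.inl (hP p hp i)⟩, rfl⟩
  have hRI : R ∈ Ideal.span (Set.range A) := Ideal.subset_span ⟨⟨(R, d), hR, Or.inr rfl⟩, rfl⟩
  have hfin := Ideal.finite_minimalPrimes_of_isNoetherianRing _ (Ideal.span (Set.range A))
  refine hfin.subset ?_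
  rintro J ⟨f, hf, rfl⟩
  have hp := curve_prime hf
  have hle : Ideal.span (Set.range A) ≤ mapIdeal f Set.univ := by
    rw [Ideal.span_le]
    rintro _ ⟨l, rfl⟩
    rcases l.2.2 with h | h
    · exact curve_le hP hf h
    · have h1 : A l = R := h
      rw [h1]
      exact curve_mem hR hf
  obtain ⟨J, hJ, hJle⟩ := Ideal.exists_minimalPrimes_le hle
  have hJp : J.IsPrime := hJ.1.1
  have h1 := curve_min hP hz hRP hR (homog_of_minimal hAh hJ) (hPI.trans hJ.1.2) (hJ.1.2 hRI) hf hJle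
  rwa [← h1]

theorem curve_eq [P.IsPrime] (hP : Homog P) (hz : ∃ z : Fin 2 → FunField P, IsTranscendenceBasis ℂ z) (hR : R.IsHomogeneous d) (hRP : R ∉ P)
    (hf : CurveIn P R f) (hg : CurveIn P R g) (hle : mapIdeal f Set.univ ≤ mapIdeal g Set.univ) : mapIdeal f Set.univ = mapIdeal g Set.univ := by
  have hp := curve_prime hf
  exact curve_min hP hz hRP hR mapIdeal_homog (curve_le hP hf) (curve_mem hR hf) hg hle

end Pool.Agent.SR2.NC
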