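import Pool.Agent.SR2.NC.Defs
import Pool.Agent.H14.TS.Fin

/-!
# SR2 NC FinZ: finitely many zeros
-/

set_option autoImplicit false

open Topology Filter Metric MvPolynomial

noncomputable section

namespace Pool.Agent.SR2.NC

open Pool.Agent.H17 (PN VanishesAt HolomorphicInto)
open Pool.Agent.H62.FC (Homog)
open Pool.Agent.H17LG.Variety (FunField)
open Pool.Agent.H17EF (projVar)

variable {N : ℕ} {J : Ideal (MvPolynomial (Fin (N + 1)) ℂ)}

/-- A form which is not in `J` has only finitely many zeros on the projective curve of `J`. -/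
theorem finite_zeros [J.IsPrime] (hJ : Homog J) (hz : ∃ z : Fin 1 → FunField J, IsTranscendenceBasis ℂ z) {G : MvPolynomial (Fin (N + 1)) ℂ} {n : ℕ}
    (hG : G.IsHomogeneous n) (hGJ : G ∉ J) : {p : PN N | p ∈ projVar J ∧ VanishesAt G p}.Finite :=
  Pool.Agent.H14.TS.finite_zeros hJ hz hG hGJ

end Pool.Agent.SR2.NC
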