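import Pool.Agent.SR2.NC.Defs
import Pool.Agent.H13.SM.Grad

/-!
# SR2 NC Fld: two polynomial vector fields on a projective curve

`N - 1` elements of `J` with independent gradients at `x₀` and two unit rows; the columns of the adjugate.
-/

set_option autoImplicit false

open MvPolynomial

noncomputable section

namespace Pool.Agent.SR2.NC

open Pool.Agent.H13.SM (conTan)

variable {N : ℕ} {J : Ideal (MvPolynomial (Fin (N + 1)) ℂ)}

/-- `H13.SM.exists_indep` (`n = 1`): `N - 1` elements `f l` of `J` with independent gradients at `x₀`; two unit vectors `e_(a 0)`, `e_(a 1)` complete them to a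
basis (if `N = 0` or `finrank < 2`: see below); `M (x)` = the matrix with these rows, `D = det M`, `t k` = the column of the adjugate which belongs to the row
`e_(a k)`: `M (x) v = (0, …, 0, v_(a 0), v_(a 1))` for `v ∈ conTan J x`, multiply by the adjugate.  (`N + 1 = (N - 1) + 2` for `N ≥ 1`.  `N = 0`: then `J`
contains no curve; the hypothesis `1 ≤ N` excludes it.) -/
theorem exists_fields (hN : 1 ≤ N) {x₀ : Fin (N + 1) → ℂ} (h : Module.finrank ℂ (conTan J x₀) ≤ 2) : ∃ T : Fields J, eval x₀ T.D ≠ 0 := by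
  classical
  obtain ⟨M, rfl⟩ : ∃ M, N = M + 1 := ⟨N - 1, by omega⟩
  obtain ⟨f, hf, hli⟩ : ∃ f : Fin M → MvPolynomial (Fin (M + 1 + 1)) ℂ, (∀ j, f j ∈ J) ∧
      LinearIndependent ℂ fun (j : Fin M) (i : Fin (M + 1 + 1)) => eval x₀ (pderiv i (f j)) :=
    Pool.Agent.H13.SM.exists_indep (n := 1) h
  set r : Fin M → Fin (M + 1 + 1) → ℂ := fun j i => eval x₀ (pderiv i (f j)) with hr
  -- two unit vectors
  set W : Submodule ℂ (Fin (M + 1 + 1) → ℂ) := Submodule.span ℂ (Set.range r) with hW
  have hfW : Module.finrank ℂ W = M := by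
    rw [hW, finrank_span_eq_card hli, Fintype.card_fin]
  have hfQ : Module.finrank ℂ ((Fin (M + 1 + 1) → ℂ) ⧸ W) = 2 := by
    have h1 := W.finrank_quotient_add_finrank
    rw [hfW, Module.finrank_fintype_fun_eq_card, Fintype.card_fin] at h1
    omega
  obtain ⟨κ, a, ha, hsp, hlin⟩ := exists_linearIndependent' ℂ fun i : Fin (M + 1 + 1) => (W.mkQ (Pi.single i (1 : ℂ)))
  have htop : Submodule.span ℂ (Set.range fun i : Fin (M + 1 + 1) => (W.mkQ (Pi.single i (1 : ℂ)))) = ⊤ := by
    have h1 : (Set.range fun i : Fin (M + 1 + 1) => (W.mkQ (Pi.single i (1 : ℂ)))) = W.mkQ '' Set.range fun i : Fin (M + 1 + 1) => (Pi.single i (1 : ℂ)) := by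
      rw [← Set.range_comp]
      rfl
    rw [h1, ← Submodule.map_span]
    have h2 : Submodule.span ℂ (Set.range fun i : Fin (M + 1 + 1) => (Pi.single i (1 : ℂ) : Fin (M + 1 + 1) → ℂ)) = ⊤ := by
      have h3 := (Pi.basisFun ℂ (Fin (M + 1 + 1))).span_eq
      have h4 : (⇑(Pi.basisFun ℂ (Fin (M + 1 + 1)))) = fun i : Fin (M + 1 + 1) => (Pi.single i (1 : ℂ) : Fin (M + 1 + 1) → ℂ) := by
        funext i
        exact Pi.basisFun_apply _ _ _
      rwa [h4] at h3
    rw [h2, Submodule.map_top, Submodule.range_mkQ]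
  have hfk : Finite κ := Finite.of_injective a ha
  have : Fintype κ := Fintype.ofFinite κ
  have hcard : Fintype.card κ = 2 := by
    have h1 := finrank_span_eq_card hlin
    rw [hsp, htop, finrank_top, hfQ] at h1
    exact h1.symm
  let u : Fin 2 ≃ κ := (Fintype.equivFinOfCardEq hcard).symm
  have hlin2 : LinearIndependent ℂ ((Submodule.Quotient.mk (p := W)) ∘ fun k : Fin 2 => (Pi.single (a (u k)) (1 : ℂ) : Fin (M + 1 + 1) → ℂ)) :=
    hlin.comp u u.injective
  have hrW : LinearIndependent ℂ (fun j : Fin M => (⟨r j, Submodule.subset_span ⟨j, rfl⟩⟩ : W)) := by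
    have : LinearIndependent ℂ (W.subtype ∘ fun j : Fin M => (⟨r j, Submodule.subset_span ⟨j, rfl⟩⟩ : W)) := hli
    exact LinearIndependent.of_comp W.subtype this
  have hall : LinearIndependent ℂ (Sum.elim (fun j : Fin M => r j) fun k : Fin 2 => (Pi.single (a (u k)) (1 : ℂ) : Fin (M + 1 + 1) → ℂ)) :=
    hrW.sumElim_of_quotient _ hlin2
  -- the matrix
  let e : Fin M ⊕ Fin 2 ≃ Fin (M + 1 + 1) := finSumFinEquiv
  let A : Matrix (Fin M ⊕ Fin 2) (Fin M ⊕ Fin 2) (MvPolynomial (Fin (M + 1 + 1)) ℂ) :=
    Matrix.of fun i j => Sum.elim (fun k => pderiv (e j) (f k)) (fun k => C ((Pi.single (a (u k)) (1 : ℂ) : Fin (M + 1 + 1) → ℂ) (e j))) i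
  have hAx : ∀ x, (A.map (eval x)) = Matrix.of fun i j => Sum.elim (fun k => eval x (pderiv (e j) (f k)))
      (fun k => ((Pi.single (a (u k)) (1 : ℂ) : Fin (M + 1 + 1) → ℂ) (e j))) i := by
    intro x
    ext i j
    rcases i with i | i
    · rfl
    · simp [A]
  refine ⟨⟨fun k b => A.adjugate (e.symm b) (Sum.inr k), fun k => a (u k), A.det, fun x hx v hv b => ?_⟩, ?_⟩
  · have h1 : (A.map (eval x)).mulVec (v ∘ e) = Sum.elim (fun _ => 0) fun k => v (a (u k)) := by
      funext i
      rw [hAx]
      rcases i with i | i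
      · have h2 := hv (f i) (hf i)
        show ∑ j, eval x (pderiv (e j) (f i)) * v (e j) = 0
        rw [← h2, ← e.sum_comp]
        exact Finset.sum_congr rfl fun j _ => mul_comm _ _
      · show ∑ j, (Pi.single (a (u i)) (1 : ℂ) : Fin (M + 1 + 1) → ℂ) (e j) * v (e j) = v (a (u i))
        rw [e.sum_comp fun j => (Pi.single (a (u i)) (1 : ℂ) : Fin (M + 1 + 1) → ℂ) j * v j]
        rw [Finset.sum_eq_single (a (u i))]
        · simp
        · intro j _ hj
          rw [Pi.single_eq_of_ne hj, zero_mul]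
        · intro hj
          exact absurd (Finset.mem_univ _) hj
    have h2 := congrArg (fun w => (A.map (eval x)).adjugate.mulVec w (e.symm b)) h1
    simp only [Matrix.mulVec_mulVec, Matrix.adjugate_mul, Matrix.smul_mulVec, Matrix.one_mulVec, Pi.smul_apply, Function.comp_apply,
      Equiv.apply_symm_apply, smul_eq_mul] at h2
    have h3 : (A.map (eval x)).det = eval x A.det := ((eval x).map_det A).symm
    rw [h3] at h2
    rw [h2]
    have h4 : ∀ i j, (A.map (eval x)).adjugate i j = eval x (A.adjugate i j) := by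
      intro i j
      have h5 := (eval x).map_adjugate A
      have h6 := congrFun (congrFun h5 i) j
      exact h6.symm
    unfold Matrix.mulVec dotProduct
    rw [Fintype.sum_sum_type]
    simp only [Sum.elim_inl, Sum.elim_inr, mul_zero, Finset.sum_const_zero, zero_add, Fin.sum_univ_two, h4]
    ring
  · show eval x₀ A.det ≠ 0
    have h3 : eval x₀ A.det = (A.map (eval x₀)).det := (eval x₀).map_det A
    rw [h3]
    have h4 : LinearIndependent ℂ (A.map (eval x₀)).row := by
      rw [Fintype.linearIndependent_iff]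
      intro c hc
      rw [Fintype.linearIndependent_iff] at hall
      apply hall
      funext b
      have h5 := congrFun hc (e.symm b)
      rw [hAx] at h5
      rw [Finset.sum_apply] at h5 ⊢
      rw [Pi.zero_apply] at h5 ⊢
      rw [← h5]
      refine Finset.sum_congr rfl fun i _ => ?_
      rcases i with i | i
      · simp [Matrix.row, hr]
      · simp [Matrix.row]
    rw [Matrix.linearIndependent_rows_iff_isUnit, Matrix.isUnit_iff_isUnit_det] at h4
    exact h4.ne_zero

end Pool.Agent.SR2.NC
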