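import Pool.Agent.SR2.NC.Defs
import Pool.Agent.AD.T.NCDefs

/-!
# SR2 NC Stub (MODULE H14 exists_nullCurve): never import this file in a hand-in.  One module = one file `SR2/NC/<Module>.lean`, namespace
`Pool.Agent.SR2.NC`, statements verbatim.
-/

set_option autoImplicit false

open Topology Filter Metric MvPolynomial

noncomputable section

namespace Pool.Agent.SR2.NC.Stub

open Pool.Agent.SR2.NC
open Pool.Agent.H36.BP (EN)
open Pool.Agent.H17 (PN VanishesAt HolomorphicInto)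
open Pool.Agent.H62.FC (Homog)
open Pool.Agent.H17LG.Variety (FunField)
open Pool.Agent.H17EF (projVar coneE LE)
open Pool.Agent.H13.SM (conTan cone)
open Pool.Agent.H13.OT (OrderTwo)
open Pool.Agent.H17BP (mapIdeal)
open Pool.Agent.AD (SymDiff TangentTo)
open Pool.Agent.AD.NC (IsSmooth)

variable {N : ℕ} {P J : Ideal (MvPolynomial (Fin (N + 1)) ℂ)} {R H : MvPolynomial (Fin (N + 1)) ℂ} {d h : ℕ} {f g : ℂ → PN N}

/-! ## module FinZ (64): finitely many zeros -/

/-- A form which is not in `J` has only finitely many zeros on the projective curve of `J`.  The minimal primes `Q` over `J + (G)` are homogeneous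
(`H62.FC.homog_of_minimal`, generators = the homogeneous components of the elements of `J`, and `G`), `J < Q`; if they do not contain all `X i`, the
transcendence degree of `FunField Q` is `0` (`H17BP.trdeg_lt`, `exists_fin_basis`), so they have one point (`H17BP.eq_of_trdeg_zero`);
`Ideal.finite_minimalPrimes_of_isNoetherianRing`. -/
theorem finite_zeros [J.IsPrime] (hJ : Homog J) (hz : ∃ z : Fin 1 → FunField J, IsTranscendenceBasis ℂ z) {G : MvPolynomial (Fin (N + 1)) ℂ} {n : ℕ}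
    (hG : G.IsHomogeneous n) (hGJ : G ∉ J) : {p : PN N | p ∈ projVar J ∧ VanishesAt G p}.Finite := by
  sorry

/-! ## module Cur (38): the ideals of the curves -/

theorem curve_prime (hf : CurveIn P R f) : (mapIdeal f Set.univ).IsPrime := by
  sorry

/-- `P < mapIdeal f`, so the transcendence degree is `≤ 1`; it is not `0` since `f` is not constant (`eq_of_trdeg_zero`). -/
theorem curve_trdeg [P.IsPrime] (hP : Homog P) (hz : ∃ z : Fin 2 → FunField P, IsTranscendenceBasis ℂ z) (hR : R.IsHomogeneous d) (hRP : R ∉ P)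
    (hf : CurveIn P R f) (hp : (mapIdeal f Set.univ).IsPrime) : ∃ z : Fin 1 → FunField (mapIdeal f Set.univ), IsTranscendenceBasis ℂ z := by
  sorry

/-- There are only finitely many ideals `mapIdeal f`: they are minimal primes over `P + (R)` (a homogeneous prime `Q` with `P < Q ≤ mapIdeal f` is equal to
`mapIdeal f` by `trdeg_lt`; minimal primes over `P + (R)` are homogeneous, `H62.FC.homog_of_minimal`). -/
theorem finite_curves [P.IsPrime] (hP : Homog P) (hz : ∃ z : Fin 2 → FunField P, IsTranscendenceBasis ℂ z) (hR : R.IsHomogeneous d) (hRP : R ∉ P) :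
    {J : Ideal (MvPolynomial (Fin (N + 1)) ℂ) | ∃ f, CurveIn P R f ∧ J = mapIdeal f Set.univ}.Finite := by
  sorry

theorem curve_eq [P.IsPrime] (hP : Homog P) (hz : ∃ z : Fin 2 → FunField P, IsTranscendenceBasis ℂ z) (hR : R.IsHomogeneous d) (hRP : R ∉ P)
    (hf : CurveIn P R f) (hg : CurveIn P R g) (hle : mapIdeal f Set.univ ≤ mapIdeal g Set.univ) : mapIdeal f Set.univ = mapIdeal g Set.univ := by
  sorry

/-! ## module Gen (68): forms which generate a homogeneous ideal up to powers of the coordinates -/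

/-- The homogeneous components of finitely many generators, multiplied by powers `X i ^ e`, all `i`. -/
theorem exists_forms {I : Ideal (MvPolynomial (Fin (N + 1)) ℂ)} (hI : Homog I) : ∃ (t D : ℕ) (R' : Fin t → MvPolynomial (Fin (N + 1)) ℂ),
    (∀ l, (R' l).IsHomogeneous D) ∧ (∀ l, R' l ∈ I) ∧
    (∀ x : Fin (N + 1) → ℂ, x ≠ 0 → (∀ l, eval x (R' l) = 0) → (∀ G ∈ I, eval x G = 0) ∧
      ∀ v : Fin (N + 1) → ℂ, (∀ l, ∑ i, v i * eval x (pderiv i (R' l)) = 0) → v ∈ conTan I x) ∧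
    ∀ Q : Ideal (MvPolynomial (Fin (N + 1)) ℂ), Q.IsPrime → (∃ i, (X i : MvPolynomial (Fin (N + 1)) ℂ) ∉ Q) → (∀ l, R' l ∈ Q) → I ≤ Q := by
  sorry

/-! ## module Nul (25): the form along the null curve -/

/-- Along `f`: `x = s • F (z)`, `s ≠ 0`, `G (x) ≠ 0`; `F' (z) ∈ conTan x`, so `F' = α x + β t (x)`; if `β ≠ 0` then `θ (x, t (x)) = β⁻ᵐ θ (x, F') = 0`;
`β = 0` only where `F'` is a multiple of `F` (a discrete set, `f` is not constant); so the polynomial `W (x, t (x))` vanishes at `s • F (z)` for all `s ≠ 0` and all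
`z` outside a discrete set, so everywhere. -/
theorem null_mem (hP : Homog P) {m r : ℕ} (hm : 1 ≤ m) (θ : SymDiff (oc P H) m) (hH : H.IsHomogeneous h) {W : MvPolynomial (Fin (N + 1) ⊕ Fin (N + 1)) ℂ}
    (hW : ∀ x ∈ oc P H, ∀ v, Pool.Agent.H14.PP.Tan (oc P H) x v → θ.toFun x v * eval x.ofLp H ^ r = eval (Sum.elim x.ofLp v.ofLp) W)
    (hf : HolomorphicInto f Set.univ) (hfP : ∀ z, f z ∈ projVar P ∧ ¬ VanishesAt H (f z)) (hne : ∃ z w, f z ≠ f w) (hθ : TangentTo θ f)
    {G : MvPolynomial (Fin (N + 1)) ℂ} {t : Fin (N + 1) → MvPolynomial (Fin (N + 1)) ℂ} (hG : G ∉ mapIdeal f Set.univ)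
    (ht : Tng (mapIdeal f Set.univ) G t) : aeval (Sum.elim X t) W ∈ mapIdeal f Set.univ := by
  sorry

/-! ## module Pt (81): at a good point -/

/-- `θ` vanishes on the tangent vectors of the curve of `J` at the points with `G ≠ 0`. -/
theorem null_at [P.IsPrime] {z : Fin 2 → FunField P} (hP : Homog P) (hz : IsTranscendenceBasis ℂ z) (hsm : IsSmooth P 2) (hPJ : P ≤ J)
    {m r : ℕ} (hm : 1 ≤ m) (θ : SymDiff (oc P H) m) {W : MvPolynomial (Fin (N + 1) ⊕ Fin (N + 1)) ℂ}
    (hW : ∀ x ∈ oc P H, ∀ v, Pool.Agent.H14.PP.Tan (oc P H) x v → θ.toFun x v * eval x.ofLp H ^ r = eval (Sum.elim x.ofLp v.ofLp) W)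
    {G : MvPolynomial (Fin (N + 1)) ℂ} {t : Fin (N + 1) → MvPolynomial (Fin (N + 1)) ℂ} (ht : Tng J G t) (hT : aeval (Sum.elim X t) W ∈ J)
    {y : EN N} (hy : y ∈ oc P H) (hyJ : ∀ G ∈ J, eval y.ofLp G = 0)
    (hD : eval y.ofLp G ≠ 0) {w : EN N} (hw : w.ofLp ∈ conTan J y.ofLp) : θ.toFun y w = 0 := by
  sorry

/-! ## module Fin (81): the assembly -/

theorem exists_nullCurve [P.IsPrime] {z : Fin 2 → FunField P} (hP : Homog P) (hz : IsTranscendenceBasis ℂ z) (hsm : IsSmooth P 2)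
    (hH : H.IsHomogeneous h) (h1 : 1 ≤ h) (hHP : H ∉ P) {s : ℕ} {m : Fin s → ℕ} (hs1 : 1 ≤ s) (hm : ∀ j, 1 ≤ m j) (θ : ∀ j, SymDiff (oc P H) (m j))
    (hθ : ∀ j, IsAlg (θ j)) {R : MvPolynomial (Fin (N + 1)) ℂ} {d : ℕ} (hR : R.IsHomogeneous d) (hRP : R ∉ P)
    (hnull : ∀ f : ℂ → PN N, HolomorphicInto f Set.univ → OrderTwo f → (∀ z, f z ∈ projVar P ∧ ¬ VanishesAt H (f z)) → (∃ z w, f z ≠ f w) →
      (∀ j, TangentTo (θ j) f) → ∀ z, VanishesAt R (f z)) :
    ∃ (t : ℕ) (R' : Fin t → MvPolynomial (Fin (N + 1)) ℂ), NullCurve θ R' := by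
  sorry

end Pool.Agent.SR2.NC.Stub
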